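import Pool.Agent.W500.CS.Stm2

/-!
# CQ-RAYSEP
-/
set_option autoImplicit false

open Filter Topology Metric Set MeasureTheory

namespace Pool.Agent.W782.CQ

open Pool.Agent.W500.CS

theorem cnt (c : ℂ) (hc : c ≠ 0) (p : ℝ) (hp : p ≠ 0) (d : ℝ) :
    {θ : ℝ | (Complex.exp (Complex.I * p * θ) * c).re = d}.Countable := by
  have hre : ∀ θ : ℝ, (Complex.exp (Complex.I * p * θ) * c).re =
      ‖c‖ * Real.cos (p * θ + Complex.arg c) := by
    intro θ
    have h1 : Complex.exp (Complex.I * p * θ) * c =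
        (‖c‖ : ℂ) * Complex.exp (((p * θ + Complex.arg c : ℝ) : ℂ) * Complex.I) := by
      nth_rewrite 1 [← Complex.norm_mul_exp_arg_mul_I c]
      rw [mul_comm, mul_assoc, ← Complex.exp_add]
      congr 2
      push_cast
      ring
    rw [h1, Complex.re_ofReal_mul, Complex.exp_ofReal_mul_I_re]
  have hc' : ‖c‖ ≠ 0 := norm_ne_zero_iff.2 hc
  rcases Set.eq_empty_or_nonempty {θ : ℝ | (Complex.exp (Complex.I * p * θ) * c).re = d} with
    h0 | ⟨θ₀, h0⟩
  · rw [h0]; exact Set.countable_empty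
  · have hsub : {θ : ℝ | (Complex.exp (Complex.I * p * θ) * c).re = d} ⊆
        (Set.range fun k : ℤ => ((p * θ₀ + Complex.arg c) - 2 * k * Real.pi - Complex.arg c) / p) ∪
        (Set.range fun k : ℤ =>
          (2 * k * Real.pi - (p * θ₀ + Complex.arg c) - Complex.arg c) / p) := by
      intro θ hθ
      have h1 : ‖c‖ * Real.cos (p * θ + Complex.arg c) =
          ‖c‖ * Real.cos (p * θ₀ + Complex.arg c) := by
        rw [← hre, ← hre]
        exact Eq.trans hθ (Eq.symm h0)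
      have h2 := mul_left_cancel₀ hc' h1
      rw [Real.cos_eq_cos_iff] at h2
      obtain ⟨k, hk | hk⟩ := h2
      · left
        refine ⟨k, ?_⟩
        show ((p * θ₀ + Complex.arg c) - 2 * k * Real.pi - Complex.arg c) / p = θ
        rw [hk]
        field_simp
        ring
      · right
        refine ⟨k, ?_⟩
        show (2 * k * Real.pi - (p * θ₀ + Complex.arg c) - Complex.arg c) / p = θ
        rw [hk]
        field_simp
        ring
    exact (((Set.countable_range _).union (Set.countable_range _))).mono hsub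

theorem hasDerivAt_Am (θ x : ℝ) : HasDerivAt (Am θ)
    (Complex.exp (Complex.I * ((θ : ℂ) + x)) * (1 + Complex.I * x)) x := by
  have h1 : HasDerivAt (fun y : ℝ => (y : ℂ)) 1 x := by
    have h := (hasDerivAt_id x).ofReal_comp
    simpa using h
  have h2 := ((h1.const_add (θ : ℂ)).const_mul Complex.I).cexp
  have h3 := h1.mul h2
  have h4 : (1 : ℂ) * Complex.exp (Complex.I * ((θ : ℂ) + x)) +
      (x : ℂ) * (Complex.exp (Complex.I * ((θ : ℂ) + x)) * (Complex.I * 1)) =
      Complex.exp (Complex.I * ((θ : ℂ) + x)) * (1 + Complex.I * x) := by ring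
  rw [h4] at h3
  exact h3

/-- the normalised function -/
noncomputable def Q (g1 : ℂ → ℂ) (p θ x : ℝ) : ℂ :=
  Complex.exp (Complex.I * p * ((θ : ℂ) + x)) * g1 (Am θ x) * (1 + Complex.I * x)

theorem hasDerivAt_Q (g1 : ℂ → ℂ) (hg : AnalyticAt ℂ g1 0) (p θ : ℝ) :
    HasDerivAt (Q g1 p θ) (Complex.exp (Complex.I * p * θ) * (Complex.I * p * g1 0 +
      deriv g1 0 * Complex.exp (Complex.I * θ) + g1 0 * Complex.I)) 0 := by
  have h1 : HasDerivAt (fun y : ℝ => (y : ℂ)) 1 0 := by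
    have h := (hasDerivAt_id (0 : ℝ)).ofReal_comp
    simpa using h
  have h2 := ((h1.const_add (θ : ℂ)).const_mul (Complex.I * p)).cexp
  have h3 := hasDerivAt_Am θ 0
  have hA0 : Am θ 0 = 0 := by simp [Am]
  have h4 : HasDerivAt g1 (deriv g1 0) (Am θ 0) := by
    rw [hA0]
    exact hg.differentiableAt.hasDerivAt
  have h5 := h4.comp (0 : ℝ) h3
  have h6 := (h1.const_mul Complex.I).const_add 1
  have h7 := (h2.mul h5).mul h6
  have h8 : ((Complex.exp (Complex.I * p * ((θ : ℂ) + (0 : ℝ))) * (Complex.I * p * 1)) *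
      (g1 ∘ Am θ) 0 + Complex.exp (Complex.I * p * ((θ : ℂ) + (0 : ℝ))) *
      (deriv g1 0 * (Complex.exp (Complex.I * ((θ : ℂ) + (0 : ℝ))) *
        (1 + Complex.I * (0 : ℝ))))) * (1 + Complex.I * ((0 : ℝ) : ℂ)) +
      (Complex.exp (Complex.I * p * ((θ : ℂ) + (0 : ℝ))) * (g1 ∘ Am θ) 0) * (Complex.I * 1) =
      Complex.exp (Complex.I * p * θ) * (Complex.I * p * g1 0 +
      deriv g1 0 * Complex.exp (Complex.I * θ) + g1 0 * Complex.I) := by
    simp only [Function.comp_apply, hA0, Complex.ofReal_zero, add_zero, mul_zero, mul_one]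
    ring
  rw [← h8]
  exact h7

theorem Q_zero (g1 : ℂ → ℂ) (p θ : ℝ) :
    Q g1 p θ 0 = Complex.exp (Complex.I * p * θ) * g1 0 := by
  simp [Q, Am]

/-- for almost every angle the normalised function has nonzero real part -/
theorem ae_Q (g1 : ℂ → ℂ) (hg : AnalyticAt ℂ g1 0) (h0 : g1 0 ≠ 0) (p : ℝ) :
    ∀ᵐ θ : ℝ, ∀ᶠ x : ℝ in 𝓝[>] 0, (Q g1 p θ x).re ≠ 0 := by
  have hcont : ∀ θ : ℝ, (Q g1 p θ 0).re ≠ 0 → ∀ᶠ x : ℝ in 𝓝[>] 0, (Q g1 p θ x).re ≠ 0 := by
    intro θ h
    have h1 : ContinuousAt (fun x => (Q g1 p θ x).re) 0 :=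
      Complex.continuous_re.continuousAt.comp (hasDerivAt_Q g1 hg p θ).continuousAt
    exact (h1.eventually_ne h).filter_mono nhdsWithin_le_nhds
  by_cases hp : p = 0
  · subst hp
    by_cases hre : (g1 0).re = 0
    · have him : (g1 0).im ≠ 0 := by
        intro him
        exact h0 (Complex.ext hre him)
      have hder : ∀ θ : ℝ, (deriv g1 0 * Complex.exp (Complex.I * θ) + g1 0 * Complex.I).re ≠ 0 →
          ∀ᶠ x : ℝ in 𝓝[>] 0, (Q g1 0 θ x).re ≠ 0 := by
        intro θ h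
        have h1 := hasDerivAt_Q g1 hg 0 θ
        have h2 : HasDerivAt (fun x => (Q g1 0 θ x).re)
            (Complex.exp (Complex.I * (0 : ℝ) * θ) * (Complex.I * (0 : ℝ) * g1 0 +
              deriv g1 0 * Complex.exp (Complex.I * θ) + g1 0 * Complex.I)).re 0 :=
          Complex.reCLM.hasFDerivAt.comp_hasDerivAt (0 : ℝ) h1
        have h3 : (Complex.exp (Complex.I * (0 : ℝ) * θ) * (Complex.I * (0 : ℝ) * g1 0 +
              deriv g1 0 * Complex.exp (Complex.I * θ) + g1 0 * Complex.I)) =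
            deriv g1 0 * Complex.exp (Complex.I * θ) + g1 0 * Complex.I := by
          simp
        rw [h3] at h2
        have h4 := h2.eventually_ne (c := 0) h
        exact h4.filter_mono (nhdsWithin_mono _ fun x (hx : 0 < x) => ne_of_gt hx)
      by_cases hd : deriv g1 0 = 0
      · refine Filter.Eventually.of_forall fun θ => hder θ ?_
        rw [hd, zero_mul, zero_add, Complex.mul_I_re]
        exact neg_ne_zero.2 him
      · have hc := cnt (deriv g1 0) hd 1 one_ne_zero (g1 0).im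
        filter_upwards [hc.ae_notMem volume] with θ hθ
        refine hder θ fun h => hθ ?_
        have h1 : (deriv g1 0 * Complex.exp (Complex.I * θ)).re - (g1 0).im = 0 := by
          rw [Complex.add_re, Complex.mul_I_re] at h
          linarith
        show (Complex.exp (Complex.I * (1 : ℝ) * θ) * deriv g1 0).re = (g1 0).im
        rw [Complex.ofReal_one, mul_one, mul_comm (Complex.exp _) _]
        linarith
    · refine Filter.Eventually.of_forall fun θ => hcont θ ?_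
      rw [Q_zero]
      simpa using hre
  · filter_upwards [(cnt (g1 0) h0 p hp 0).ae_notMem volume] with θ hθ
    refine hcont θ fun h => hθ ?_
    rw [Q_zero] at h
    exact h

theorem key (g1 : ℂ → ℂ) (m K : ℕ) (θ x : ℝ) (hx : 0 < x) :
    Am θ x ^ m * g1 (Am θ x) / Am θ x ^ K * deriv (Am θ) x =
      ((x ^ m / x ^ K : ℝ) : ℂ) * Q g1 ((m : ℝ) - K + 1) θ x := by
  rw [(hasDerivAt_Am θ x).deriv]
  have hx0 : (x : ℂ) ≠ 0 := by exact_mod_cast hx.ne'
  set E := Complex.exp (Complex.I * ((θ : ℂ) + x)) with hE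
  have hE0 : E ≠ 0 := Complex.exp_ne_zero _
  have hp : Complex.exp (Complex.I * (((m : ℝ) - K + 1 : ℝ) : ℂ) * ((θ : ℂ) + x)) =
      E ^ m / E ^ K * E := by
    rw [hE, ← Complex.exp_nat_mul, ← Complex.exp_nat_mul, ← Complex.exp_sub, ← Complex.exp_add]
    congr 1
    push_cast
    ring
  have hA : Am θ x = x * E := rfl
  rw [Q, hp, hA]
  push_cast
  rw [mul_pow, mul_pow]
  field_simp

theorem main : S_RAYSEP := by
  intro R K g hR hg hne
  have han : AnalyticAt ℂ g 0 := (hg.analyticOnNhd isOpen_ball) 0 (mem_ball_self hR)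
  have hnz : ¬ ∀ᶠ z in 𝓝 (0 : ℂ), g z = 0 := by
    intro h
    have h1 : ∀ᶠ z in 𝓝[≠] (0 : ℂ), g z = 0 := h.filter_mono nhdsWithin_le_nhds
    have h2 : ∀ᶠ z in 𝓝[≠] (0 : ℂ), z ∈ ball (0 : ℂ) R :=
      (isOpen_ball.mem_nhds (mem_ball_self hR) : ball (0 : ℂ) R ∈ 𝓝 0) |>
        fun h => (h : ∀ᶠ z in 𝓝 (0 : ℂ), z ∈ ball (0 : ℂ) R).filter_mono nhdsWithin_le_nhds
    obtain ⟨z, hz1, hz2, hz3⟩ := (h1.and (h2.and self_mem_nhdsWithin)).exists
    exact hne z ⟨hz2, hz3⟩ hz1
  obtain ⟨m, g1, hg1, hg10, hfac⟩ := (han.exists_eventuallyEq_pow_smul_nonzero_iff).2 hnz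
  have hfac' : ∀ᶠ z in 𝓝 (0 : ℂ), g z = z ^ m * g1 z := by
    filter_upwards [hfac] with z hz
    rw [hz, sub_zero, smul_eq_mul]
  filter_upwards [ae_Q g1 hg1 hg10 ((m : ℝ) - K + 1)] with θ hθ
  have hA0 : Am θ 0 = 0 := by simp [Am]
  have hAc : Tendsto (Am θ) (𝓝 0) (𝓝 0) := by
    have h := (hasDerivAt_Am θ 0).continuousAt.tendsto
    rwa [hA0] at h
  have h1 : ∀ᶠ x in 𝓝[>] (0 : ℝ), g (Am θ x) = Am θ x ^ m * g1 (Am θ x) :=
    (hAc.eventually hfac').filter_mono nhdsWithin_le_nhds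
  filter_upwards [hθ, h1, self_mem_nhdsWithin] with x hx1 hx2 (hx3 : 0 < x)
  rw [hx2, key g1 m K θ x hx3, Complex.re_ofReal_mul]
  exact mul_ne_zero (by positivity) hx1

end Pool.Agent.W782.CQ
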